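import Pool.Agent.H.MP_5d23e6_lc.A
set_option linter.style.longLine false
namespace Pool.Agent.Results.MP_5d23e6_lc.No
open Set Cardinal Pool.Agent.H.MP_5d23e6_lc

theorem result : rp {1 / 2} = rp (Ioo 0 1) := by
  have ne : ∀ X : Set ℝ, 1 ∉ X → {c | ∃ 𝓡 : Set (Set ℕ), #𝓡 = c ∧ (∀ R ∈ 𝓡, R.Infinite) ∧
      ∀ S : Set ℕ, S.Infinite → Sᶜ.Infinite → ∃ R ∈ 𝓡, ¬ ∃ ρ ∈ X, HasD R S ρ}.Nonempty := fun X hX =>
    ⟨_, {R | R.Infinite}, rfl, fun _ h => h, fun S h _ => ⟨S, h, fun ⟨ρ, a, b⟩ => hX (by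
      have := hasD_univ h
      simp only [HasD, univ_inter, inter_self] at this b
      rwa [← tendsto_nhds_unique b this])⟩⟩
  refine le_antisymm ?_ ?_
  · obtain ⟨𝓡, a, b, c⟩ := csInf_mem (ne (Ioo 0 1) (by simp))
    refine csInf_le' ⟨𝓡, a, b, fun S i j => ?_⟩
    obtain ⟨R, k, l⟩ := c S i j
    exact ⟨R, k, fun ⟨ρ, x, y⟩ => l ⟨ρ, by rw [x]; norm_num, y⟩⟩
  obtain ⟨𝓡, a, b, c⟩ := csInf_mem (ne {1 / 2} (by norm_num))
  by_contra hc
  have : ∃ S, ∀ R ∈ insert Set.univ 𝓡, HasD R S (1 / 2) := by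
    have b' : ∀ R ∈ insert Set.univ 𝓡, R.Infinite := by rintro R (rfl | h); exacts [infinite_univ, b R h]
    by_cases f : 𝓡.Finite
    · exact finhalf _ (f.insert _) b'
    have k : ℵ₀ ≤ #𝓡 := by rw [← not_lt, lt_aleph0_iff_set_finite]; exact f
    refine half k (fun 𝓕 i j => ?_) _ (mk_insert_le.trans (add_one_of_aleph0_le k).le) b'
    by_contra hd
    push Not at hd
    have w : rp (Ioo 0 1) ≤ #𝓕 := by
      refine csInf_le' ⟨𝓕, rfl, j, fun S _ _ => ?_⟩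
      obtain ⟨R, x, y⟩ := hd S
      exact ⟨R, x, fun ⟨ρ, u, v⟩ => y ρ u v⟩
    exact hc (w.trans (i.trans a.le))
  obtain ⟨S, hS⟩ := this
  have u := hS _ (mem_insert _ _)
  obtain ⟨R, x, y⟩ := c S (by simpa using u.inf infinite_univ (by norm_num))
    (by simpa using (u.compl infinite_univ).inf infinite_univ (by norm_num))
  exact y ⟨_, rfl, hS R (mem_insert_of_mem _ x)⟩

end Pool.Agent.Results.MP_5d23e6_lc.No
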